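import Mathlib.Order.Lattice.Nat
import Mathlib.Logic.Function.Iterate
import Mathlib.Algebra.BigOperators.Group.List.Basic

/-!
Binary search trees, the offline optimum and the WPL tree algorithm.
-/

namespace Pool.Agent.Work.MP_69b7b0_lc

/-- Binary trees with natural number keys. -/
inductive BT : Type
  | nil : BT
  | node : BT → ℕ → BT → BT

namespace BT

/-- The keys in symmetric order. -/
def inorder : BT → List ℕ
  | nil => []
  | node l x r => l.inorder ++ x :: r.inorder

/-- `depth T v`: the number of nodes on the search path from the root to the key `v`. -/
def depth : BT → ℕ → ℕ
  | nil, _ => 0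
  | node l x r, v => if v < x then l.depth v + 1 else if x < v then r.depth v + 1 else 1

/-- One rotation, at any edge of the tree. -/
inductive Rot : BT → BT → Prop
  | right (a b c : BT) (x y : ℕ) : Rot (node (node a x b) y c) (node a x (node b y c))
  | left (a b c : BT) (x y : ℕ) : Rot (node a x (node b y c)) (node (node a x b) y c)
  | inLeft (l l' r : BT) (x : ℕ) : Rot l l' → Rot (node l x r) (node l' x r)
  | inRight (l r r' : BT) (x : ℕ) : Rot r r' → Rot (node l x r) (node l x r')

/-- `Rots k T T'`: `T'` is obtained from `T` by `k` rotations. -/
inductive Rots : ℕ → BT → BT → Prop
  | zero (T : BT) : Rots 0 T T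
  | succ (k : ℕ) (T T' T'' : BT) : Rot T T' → Rots k T' T'' → Rots (k + 1) T T''

/-- `Serves T σ c`: the request sequence `σ` can be served from `T` at total cost `c`; an access
costs the depth of the key, and after it any number of rotations may be done at cost one each. -/
inductive Serves : BT → List ℕ → ℕ → Prop
  | done (T : BT) : Serves T [] 0
  | access (T T' : BT) (x k c : ℕ) (σ : List ℕ) :
      Rots k T T' → Serves T' σ c → Serves T (x :: σ) (T.depth x + k + c)

/-- The offline optimum. -/
noncomputable def opt (T : BT) (σ : List ℕ) : ℕ := sInf {c | Serves T σ c}

/-- The key at the root. -/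
def root : BT → Option ℕ
  | nil => none
  | node _ x _ => some x

/-- Rotation of the edge between the root and its left child. -/
def rotR : BT → BT
  | node (node a x b) y c => node a x (node b y c)
  | t => t

/-- Rotation of the edge between the root and its right child. -/
def rotL : BT → BT
  | node a x (node b y c) => node (node a x b) y c
  | t => t

/-- Rotation of the edge between the key `x` and its parent (nothing if `x` is the root). -/
def rotUp (x : ℕ) : BT → BT
  | nil => nil
  | node l y r =>
    if x < y then (if l.root = some x then rotR (node l y r) else node (rotUp x l) y r)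
    else if y < x then (if r.root = some x then rotL (node l y r) else node l y (rotUp x r))
    else node l y r

/-- Weighted path length of the tree for the weights `w`. -/
def wpl (w : ℕ → ℕ) (T : BT) : ℕ := (T.inorder.map fun v => w v * T.depth v).sum

/-- The number of rotations done by the WPL algorithm after an access to `x`: `x` is rotated over
its current parent as long as this strictly decreases the weighted path length. -/
noncomputable def numRot (w : ℕ → ℕ) (x : ℕ) (T : BT) : ℕ :=
  sInf {k | ¬ wpl w ((rotUp x)^[k + 1] T) < wpl w ((rotUp x)^[k] T)}

/-- Total cost (accesses and rotations) of the WPL algorithm on a request sequence, from the tree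
`T` and the current access counts `w`. -/
noncomputable def wplCost : BT → (ℕ → ℕ) → List ℕ → ℕ
  | _, _, [] => 0
  | T, w, x :: σ =>
    T.depth x + numRot (Function.update w x (w x + 1)) x T +
      wplCost ((rotUp x)^[numRot (Function.update w x (w x + 1)) x T] T)
        (Function.update w x (w x + 1)) σ

end BT

end Pool.Agent.Work.MP_69b7b0_lc
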