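import Pool.Agent.Work.MP_69b7b0_lc.Defs
import Mathlib.Tactic.Ring
import Mathlib.Tactic.Linarith
import Mathlib.Order.WellFounded
import Mathlib.Data.List.Range

namespace Pool.Agent.Work.MP_69b7b0_lc

namespace BT

/-- Search tree property. -/
def Srt (T : BT) : Prop := T.inorder.Pairwise (· < ·)

lemma srt_node {l r : BT} {x : ℕ} : Srt (node l x r) ↔
    Srt l ∧ Srt r ∧ (∀ a ∈ l.inorder, a < x) ∧ (∀ b ∈ r.inorder, x < b) := by
  unfold Srt
  simp only [inorder, List.pairwise_append, List.pairwise_cons, List.mem_cons]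
  constructor
  · rintro ⟨h1, ⟨h2, h3⟩, h4⟩
    exact ⟨h1, h3, fun a ha => h4 a ha x (Or.inl rfl), h2⟩
  · rintro ⟨h1, h2, h3, h4⟩
    refine ⟨h1, ⟨h4, h2⟩, fun a ha b hb => ?_⟩
    rcases hb with rfl | hb
    · exact h3 a ha
    · exact (h3 a ha).trans (h4 b hb)

lemma srt_of_range {T : BT} {n : ℕ} (h : T.inorder = List.range' 1 n) : Srt T := by
  unfold Srt
  rw [h]
  exact List.pairwise_lt_range'

lemma eq_nil_of_inorder {T : BT} (h : ∀ a, a ∉ T.inorder) : T = nil := by
  cases T with
  | nil => rfl
  | node l x r => exact absurd (by simp [inorder]) (h x)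

lemma inorder_rotR (T : BT) : (rotR T).inorder = T.inorder := by
  unfold rotR
  split
  · simp [inorder]
  · rfl

lemma inorder_rotL (T : BT) : (rotL T).inorder = T.inorder := by
  unfold rotL
  split
  · simp [inorder]
  · rfl

lemma inorder_rotUp (x : ℕ) (T : BT) : (rotUp x T).inorder = T.inorder := by
  induction T with
  | nil => rfl
  | node l y r ihl ihr =>
    unfold rotUp
    split_ifs
    · exact inorder_rotR _
    · simp [inorder, ihl]
    · exact inorder_rotL _
    · simp [inorder, ihr]
    · rfl

lemma inorder_iter (x k : ℕ) (T : BT) : ((rotUp x)^[k] T).inorder = T.inorder := by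
  induction k generalizing T with
  | zero => rfl
  | succ k ih => rw [Function.iterate_succ_apply, ih, inorder_rotUp]

lemma depth_le_length (T : BT) (v : ℕ) : T.depth v ≤ T.inorder.length := by
  induction T with
  | nil => simp [depth]
  | node l y r ihl ihr =>
    simp only [depth, inorder, List.length_append, List.length_cons]
    split_ifs <;> omega

lemma rotUp_of_root {x : ℕ} {T : BT} (h : T.root = some x) : rotUp x T = T := by
  cases T with
  | nil => rfl
  | node l y r =>
    simp only [root, Option.some.injEq] at h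
    subst h
    simp [rotUp]

lemma depth_of_root {x : ℕ} {T : BT} (h : T.root = some x) : T.depth x = 1 := by
  cases T with
  | nil => simp [root] at h
  | node l y r =>
    simp only [root, Option.some.injEq] at h
    subst h
    simp [depth]

lemma rotUp_spec {x : ℕ} {T : BT} (hs : Srt T) (hx : x ∈ T.inorder) (hr : T.root ≠ some x) :
    Rot T (rotUp x T) ∧ (rotUp x T).depth x + 1 = T.depth x ∧
      ∀ v, (rotUp x T).depth v ≤ T.depth v + 1 := by
  induction T with
  | nil => simp [inorder] at hx
  | node l y r ihl ihr =>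
    obtain ⟨hl, hr', h1, h2⟩ := srt_node.1 hs
    have hne : y ≠ x := by simpa [root] using hr
    simp only [inorder, List.mem_append, List.mem_cons] at hx
    unfold rotUp
    split_ifs with c1 c2 c3 c4
    · cases l with
      | nil => simp [root] at c2
      | node a z b =>
        simp only [root, Option.some.injEq] at c2
        subst c2
        refine ⟨Rot.right _ _ _ _ _, by simp [rotR, depth, c1], fun v => ?_⟩
        simp only [rotR, depth]
        split_ifs <;> omega
    · have hxl : x ∈ l.inorder := by
        rcases hx with h | h | h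
        · exact h
        · omega
        · have := h2 x h; omega
      obtain ⟨i1, i2, i3⟩ := ihl hl hxl c2
      refine ⟨Rot.inLeft _ _ _ _ i1, by simp [depth, c1, i2], fun v => ?_⟩
      simp only [depth]
      have := i3 v
      split_ifs <;> omega
    · cases r with
      | nil => simp [root] at c4
      | node a z b =>
        simp only [root, Option.some.injEq] at c4
        subst c4
        refine ⟨Rot.left _ _ _ _ _, by simp [rotL, depth, c1, c3], fun v => ?_⟩
        simp only [rotL, depth]
        split_ifs <;> omega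
    · have hxr : x ∈ r.inorder := by
        rcases hx with h | h | h
        · have := h1 x h; omega
        · omega
        · exact h
      obtain ⟨i1, i2, i3⟩ := ihr hr' hxr c4
      refine ⟨Rot.inRight _ _ _ _ i1, by simp [depth, c1, c3, i2], fun v => ?_⟩
      simp only [depth]
      have := i3 v
      split_ifs <;> omega
    · omega

lemma srt_rotUp {x : ℕ} {T : BT} (hs : Srt T) : Srt (rotUp x T) := by
  unfold Srt at *
  rwa [inorder_rotUp]

lemma depth_rotUp_le {x : ℕ} {T : BT} (hs : Srt T) (hx : x ∈ T.inorder) :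
    (rotUp x T).depth x ≤ T.depth x := by
  by_cases hr : T.root = some x
  · rw [rotUp_of_root hr]
  · have := (rotUp_spec hs hx hr).2.1
    omega

lemma depth_iter_le {x : ℕ} (k : ℕ) {T : BT} (hs : Srt T) (hx : x ∈ T.inorder) :
    ((rotUp x)^[k] T).depth x ≤ T.depth x := by
  induction k generalizing T with
  | zero => exact le_rfl
  | succ k ih =>
    rw [Function.iterate_succ_apply]
    exact (ih (srt_rotUp hs) (by rwa [inorder_rotUp])).trans (depth_rotUp_le hs hx)

/-- Total weight. -/
def tot (w : ℕ → ℕ) (T : BT) : ℕ := (T.inorder.map w).sum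

lemma sum_map_le {f g : ℕ → ℕ} (L : List ℕ) (h : ∀ v, f v ≤ g v) :
    (L.map f).sum ≤ (L.map g).sum := by
  induction L with
  | nil => simp
  | cons a L ih =>
    simp only [List.map_cons, List.sum_cons]
    have := h a
    omega

lemma sum_map_add_le {f g : ℕ → ℕ} {x c : ℕ} {L : List ℕ} (hx : x ∈ L) (h : ∀ v, f v ≤ g v)
    (hc : f x + c ≤ g x) : (L.map f).sum + c ≤ (L.map g).sum := by
  induction L with
  | nil => simp at hx
  | cons a L ih =>
    simp only [List.map_cons, List.sum_cons]
    rcases List.mem_cons.1 hx with rfl | hx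
    · have := sum_map_le L h
      omega
    · have := ih hx
      have := h a
      omega

lemma sum_map_add' (f g : ℕ → ℕ) (L : List ℕ) :
    (L.map fun v => f v + g v).sum = (L.map f).sum + (L.map g).sum := by
  induction L with
  | nil => simp
  | cons a L ih =>
    simp only [List.map_cons, List.sum_cons, ih]
    omega

lemma wpl_rotUp_le (w : ℕ → ℕ) {x : ℕ} {T : BT} (hs : Srt T) (hx : x ∈ T.inorder)
    (hr : T.root ≠ some x) : wpl w (rotUp x T) + 2 * w x ≤ wpl w T + tot w T := by
  obtain ⟨-, h2, h3⟩ := rotUp_spec hs hx hr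
  unfold wpl tot
  rw [inorder_rotUp, ← sum_map_add']
  apply sum_map_add_le hx
  · intro v
    have := Nat.mul_le_mul_left (w v) (h3 v)
    linarith
  · rw [← h2]
    apply le_of_eq
    ring

lemma sum_update_not_mem (w : ℕ → ℕ) {x : ℕ} (a : ℕ) {L : List ℕ} (hx : x ∉ L) :
    (L.map (Function.update w x a)).sum = (L.map w).sum := by
  congr 1
  apply List.map_congr_left
  intro v hv
  exact Function.update_of_ne (fun h : v = x => hx (h ▸ hv)) _ _

lemma sum_update_add (w : ℕ → ℕ) {x : ℕ} (a : ℕ) {L : List ℕ} (hL : L.Pairwise (· < ·))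
    (hx : x ∈ L) : (L.map (Function.update w x (w x + a))).sum = (L.map w).sum + a := by
  induction L with
  | nil => simp at hx
  | cons b L ih =>
    obtain ⟨h1, h2⟩ := List.pairwise_cons.1 hL
    simp only [List.map_cons, List.sum_cons]
    rcases List.mem_cons.1 hx with rfl | hx
    · rw [sum_update_not_mem w _ (fun h => lt_irrefl _ (h1 _ h)), Function.update_self]
      omega
    · rw [ih h2 hx, Function.update_of_ne (h1 x hx).ne]
      omega

lemma numRot_eq_zero {w : ℕ → ℕ} {x : ℕ} {T : BT} :
    numRot w x T = 0 ↔ wpl w T ≤ wpl w (rotUp x T) := by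
  unfold numRot
  rw [Nat.sInf_eq_zero]
  constructor
  · rintro (h | h)
    · simpa using h
    · obtain ⟨k, hk⟩ := WellFounded.not_rel_apply_succ (r := (· < · : ℕ → ℕ → Prop))
        (fun k => wpl w ((rotUp x)^[k] T))
      have : k ∈ {k | ¬ wpl w ((rotUp x)^[k + 1] T) < wpl w ((rotUp x)^[k] T)} := hk
      rw [h] at this
      exact this.elim
  · intro h
    left
    simpa using h

/-- The WPL algorithm can be driven from the first state to the second. -/
def Reach (n : ℕ) (T : BT) (w : ℕ → ℕ) (T' : BT) (w' : ℕ → ℕ) : Prop :=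
  ∃ σ : List ℕ, (∀ v ∈ σ, 1 ≤ v ∧ v ≤ n) ∧ ∀ τ, wplCost T' w' τ ≤ wplCost T w (σ ++ τ)

lemma Reach.refl (n : ℕ) (T : BT) (w : ℕ → ℕ) : Reach n T w T w :=
  ⟨[], by simp, fun _ => le_rfl⟩

lemma Reach.trans {n : ℕ} {T T' T'' : BT} {w w' w'' : ℕ → ℕ} (h1 : Reach n T w T' w')
    (h2 : Reach n T' w' T'' w'') : Reach n T w T'' w'' := by
  obtain ⟨σ, hσ, h1⟩ := h1
  obtain ⟨ρ, hρ, h2⟩ := h2
  refine ⟨σ ++ ρ, fun v hv => ?_, fun τ => ?_⟩
  · rcases List.mem_append.1 hv with h | h
    · exact hσ v h
    · exact hρ v h
  · rw [List.append_assoc]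
    exact (h2 τ).trans (h1 _)

lemma reach_step {n x : ℕ} (h1 : 1 ≤ x) (h2 : x ≤ n) (T : BT) (w : ℕ → ℕ) :
    Reach n T w ((rotUp x)^[numRot (Function.update w x (w x + 1)) x T] T)
      (Function.update w x (w x + 1)) := by
  refine ⟨[x], by simp [h1, h2], fun τ => ?_⟩
  simp only [List.singleton_append, wplCost]
  omega

lemma climb {n x : ℕ} (h1 : 1 ≤ x) (h2 : x ≤ n) (d : ℕ) : ∀ (T : BT) (w : ℕ → ℕ), Srt T →
    x ∈ T.inorder → T.depth x ≤ d →
    ∃ i w', Reach n T w ((rotUp x)^[i] T) w' ∧ ((rotUp x)^[i] T).root = some x := by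
  induction d using Nat.strong_induction_on with
  | h d IH =>
  intro T w hs hx hd
  by_cases hr : T.root = some x
  · exact ⟨0, w, Reach.refl _ _ _, hr⟩
  have inner : ∀ m : ℕ, ∀ w : ℕ → ℕ, tot w T ≤ 2 * w x + m →
      ∃ i w', Reach n T w ((rotUp x)^[i] T) w' ∧ ((rotUp x)^[i] T).root = some x := by
    intro m
    induction m using Nat.strong_induction_on with
    | h m IHm =>
    intro w hw
    have hstep := reach_step h1 h2 T w
    have htot : tot (Function.update w x (w x + 1)) T = tot w T + 1 := sum_update_add w 1 hs hx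
    rcases hk : numRot (Function.update w x (w x + 1)) x T with _ | k
    · have h3 := numRot_eq_zero.1 hk
      have h4 := wpl_rotUp_le (Function.update w x (w x + 1)) hs hx hr
      rw [Function.update_self] at h4
      rw [hk] at hstep
      obtain ⟨i, w', hi1, hi2⟩ := IHm (m - 1) (by omega) (Function.update w x (w x + 1))
        (by rw [Function.update_self]; omega)
      exact ⟨i, w', hstep.trans hi1, hi2⟩
    · rw [hk] at hstep
      have hdep : ((rotUp x)^[k + 1] T).depth x < d := by
        rw [Function.iterate_succ_apply]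
        have a1 := depth_iter_le k (srt_rotUp (x := x) hs) (by rwa [inorder_rotUp])
        have a2 := (rotUp_spec hs hx hr).2.1
        omega
      obtain ⟨i, w', hi1, hi2⟩ := IH _ hdep ((rotUp x)^[k + 1] T) (Function.update w x (w x + 1))
        (by unfold Srt; rw [inorder_iter]; exact hs) (by rwa [inorder_iter]) le_rfl
      rw [← Function.iterate_add_apply] at hi1 hi2
      exact ⟨i + (k + 1), w', hstep.trans hi1, hi2⟩
  exact inner (tot w T) w (by omega)

/-- The path `n, n-1, ..., 1` of left children. -/
def leftPath : ℕ → BT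
  | 0 => nil
  | j + 1 => node (leftPath j) (j + 1) nil

lemma inorder_leftPath (n : ℕ) : (leftPath n).inorder = List.range' 1 n := by
  induction n with
  | zero => rfl
  | succ n ih => simp [leftPath, inorder, ih, List.range'_concat, Nat.add_comm]

/-- The keys `1..j` form a left path hanging from the root `j`. -/
def Shape : ℕ → BT → Prop
  | 0, _ => True
  | j + 1, T => ∃ R, T = node (leftPath j) (j + 1) R

lemma shape_step {j : ℕ} {T : BT} (hs : Srt T) (h : Shape j T ∨ Shape (j + 1) T) :
    Shape j (rotUp (j + 1) T) ∨ Shape (j + 1) (rotUp (j + 1) T) := by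
  rcases h with h | h
  · cases j with
    | zero => exact Or.inl trivial
    | succ i =>
      obtain ⟨R, rfl⟩ := h
      by_cases hR : R.root = some (i + 1 + 1)
      · right
        cases R with
        | nil => simp [root] at hR
        | node b z c =>
          simp only [root, Option.some.injEq] at hR
          subst hR
          obtain ⟨-, h2, -, h4⟩ := srt_node.1 hs
          obtain ⟨-, -, h5, -⟩ := srt_node.1 h2
          have hb : b = nil := eq_nil_of_inorder fun a ha => by
            have := h4 a (by simp [inorder, ha])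
            have := h5 a ha
            omega
          subst hb
          exact ⟨c, by simp [rotUp, root, rotL, leftPath]⟩
      · left
        exact ⟨rotUp (i + 1 + 1) R, by simp [rotUp, hR]⟩
  · right
    obtain ⟨R, rfl⟩ := h
    rw [rotUp_of_root rfl]
    exact ⟨R, rfl⟩

lemma shape_iter {j : ℕ} (k : ℕ) {T : BT} (hs : Srt T) (h : Shape j T ∨ Shape (j + 1) T) :
    Shape j ((rotUp (j + 1))^[k] T) ∨ Shape (j + 1) ((rotUp (j + 1))^[k] T) := by
  induction k generalizing T with
  | zero => exact h
  | succ k ih =>
    rw [Function.iterate_succ_apply]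
    exact ih (srt_rotUp hs) (shape_step hs h)

lemma shape_final {n j : ℕ} {T : BT} (hT : T.inorder = List.range' 1 n)
    (hr : T.root = some (j + 1)) (h : Shape j T ∨ Shape (j + 1) T) : Shape (j + 1) T := by
  rcases h with h | h
  swap
  · exact h
  cases j with
  | succ i =>
    obtain ⟨R, rfl⟩ := h
    simp [root] at hr
  | zero =>
    cases T with
    | nil => simp [root] at hr
    | node l y r =>
      simp only [root, Option.some.injEq] at hr
      subst hr
      obtain ⟨-, -, h3, -⟩ := srt_node.1 (srt_of_range hT)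
      have hl : l = nil := eq_nil_of_inorder fun a ha => by
        have h4 := h3 a ha
        have h5 : a ∈ List.range' 1 n := by rw [← hT]; simp [inorder, ha]
        rw [List.mem_range'_1] at h5
        omega
      subst hl
      exact ⟨r, rfl⟩

lemma phase1 {n : ℕ} {T₀ : BT} (hT : T₀.inorder = List.range' 1 n) (w₀ : ℕ → ℕ) (j : ℕ)
    (hj : j ≤ n) : ∃ T w, Reach n T₀ w₀ T w ∧ T.inorder = List.range' 1 n ∧ Shape j T := by
  induction j with
  | zero => exact ⟨T₀, w₀, Reach.refl _ _ _, hT, trivial⟩
  | succ j ih =>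
    obtain ⟨T, w, h1, h2, h3⟩ := ih (by omega)
    obtain ⟨i, w', h4, h5⟩ := climb (n := n) (x := j + 1) (by omega) hj _ T w (srt_of_range h2)
      (by rw [h2, List.mem_range'_1]; omega) le_rfl
    have h6 : ((rotUp (j + 1))^[i] T).inorder = List.range' 1 n := by rw [inorder_iter, h2]
    exact ⟨_, w', h1.trans h4, h6, shape_final h6 h5 (shape_iter i (srt_of_range h2) (Or.inl h3))⟩

lemma reach_leftPath {n : ℕ} (hn : 1 ≤ n) {T₀ : BT} (hT : T₀.inorder = List.range' 1 n)
    (w₀ : ℕ → ℕ) : ∃ w, Reach n T₀ w₀ (leftPath n) w := by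
  obtain ⟨T, w, h1, h2, h3⟩ := phase1 hT w₀ n le_rfl
  obtain ⟨j, rfl⟩ : ∃ j, n = j + 1 := ⟨n - 1, by omega⟩
  obtain ⟨R, rfl⟩ := h3
  obtain ⟨-, -, -, h4⟩ := srt_node.1 (srt_of_range h2)
  have hR : R = nil := eq_nil_of_inorder fun a ha => by
    have h5 := h4 a ha
    have h6 : a ∈ List.range' 1 (j + 1) := by rw [← h2]; simp [inorder, ha]
    rw [List.mem_range'_1] at h6
    omega
  subst hR
  exact ⟨w, h1⟩

lemma tot_node (w : ℕ → ℕ) (l r : BT) (y : ℕ) :
    tot w (node l y r) = tot w l + w y + tot w r := by
  simp [tot, inorder, Nat.add_assoc]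

lemma wpl_node (w : ℕ → ℕ) {l r : BT} {y : ℕ} (hs : Srt (node l y r)) :
    wpl w (node l y r) = wpl w l + tot w l + w y + (wpl w r + tot w r) := by
  obtain ⟨-, -, h1, h2⟩ := srt_node.1 hs
  unfold wpl tot
  rw [← sum_map_add', ← sum_map_add']
  simp only [inorder, List.map_append, List.map_cons, List.sum_append, List.sum_cons]
  have e1 : (l.inorder.map fun v => w v * (node l y r).depth v) =
      l.inorder.map fun v => w v * l.depth v + w v := by
    apply List.map_congr_left
    intro v hv
    simp [depth, h1 v hv, Nat.mul_add]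
  have e2 : (r.inorder.map fun v => w v * (node l y r).depth v) =
      r.inorder.map fun v => w v * r.depth v + w v := by
    apply List.map_congr_left
    intro v hv
    have := h2 v hv
    simp [depth, this, this.le.not_gt, Nat.mul_add]
  rw [e1, e2]
  simp [depth, Nat.add_assoc]

lemma srt_leftPath (n : ℕ) : Srt (leftPath n) := srt_of_range (inorder_leftPath n)

lemma noRot (w : ℕ → ℕ) {x : ℕ} (h1 : 1 ≤ x) (n : ℕ) (h2 : x ≤ n)
    (h : x < n → tot w (leftPath x) ≤ w (x + 1)) :
    wpl w (leftPath n) ≤ wpl w (rotUp x (leftPath n)) := by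
  induction n with
  | zero => omega
  | succ n ih =>
    rcases Nat.lt_or_ge n x with hlt | hle
    · have : x = n + 1 := by omega
      subst this
      rw [rotUp_of_root rfl]
    have hs := srt_leftPath (n + 1)
    have hs' := srt_rotUp (x := x) hs
    rcases hle.lt_or_eq with hlt | rfl
    · have hr : (leftPath n).root ≠ some x := by
        obtain ⟨i, rfl⟩ : ∃ i, n = i + 1 := ⟨n - 1, by omega⟩
        simp [leftPath, root]
        omega
      have e : rotUp x (leftPath (n + 1)) = node (rotUp x (leftPath n)) (n + 1) nil := by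
        have : x < n + 1 := by omega
        simp [leftPath, rotUp, this, hr]
      rw [e] at hs' ⊢
      have := ih hle (fun _ => h (by omega))
      have ht : tot w (rotUp x (leftPath n)) = tot w (leftPath n) := by
        unfold tot; rw [inorder_rotUp]
      rw [wpl_node w hs', show leftPath (n + 1) = node (leftPath n) (n + 1) nil from rfl,
        wpl_node w hs, ht]
      omega
    · obtain ⟨i, rfl⟩ : ∃ i, x = i + 1 := ⟨x - 1, by omega⟩
      have e : rotUp (i + 1) (leftPath (i + 1 + 1)) =
          node (leftPath i) (i + 1) (node nil (i + 1 + 1) nil) := by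
        simp [leftPath, rotUp, root, rotR]
      rw [e] at hs' ⊢
      have h3 := h (by omega)
      have hs1 := srt_leftPath (i + 1)
      rw [wpl_node w hs', wpl_node w (srt_node.1 hs').2.1,
        show leftPath (i + 1 + 1) = node (leftPath (i + 1)) (i + 1 + 1) nil from rfl,
        wpl_node w hs]
      rw [show leftPath (i + 1) = node (leftPath i) (i + 1) nil from rfl] at h3 hs1 ⊢
      rw [wpl_node w hs1]
      simp only [tot_node] at h3 ⊢
      have z1 : tot w nil = 0 := rfl
      have z2 : wpl w nil = 0 := rfl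
      omega

lemma depth_leftPath {x : ℕ} (h1 : 1 ≤ x) (n : ℕ) (h2 : x ≤ n) :
    (leftPath n).depth x = n + 1 - x := by
  induction n with
  | zero => omega
  | succ n ih =>
    simp only [leftPath, depth]
    split_ifs with c1 c2
    · rw [ih (by omega)]; omega
    · omega
    · omega

lemma block_cost {n x : ℕ} (h1 : 1 ≤ x) (h2 : x ≤ n) (τ : List ℕ) (m : ℕ) : ∀ w : ℕ → ℕ,
    (x < n → tot w (leftPath x) + m ≤ w (x + 1)) →
    wplCost (leftPath n) w (List.replicate m x ++ τ) =
      m * (n + 1 - x) + wplCost (leftPath n) (Function.update w x (w x + m)) τ := by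
  induction m with
  | zero => intro w _; simp
  | succ m ih =>
    intro w hw
    have hmem : x ∈ (leftPath x).inorder := by
      rw [inorder_leftPath, List.mem_range'_1]; omega
    have ht : tot (Function.update w x (w x + 1)) (leftPath x) = tot w (leftPath x) + 1 :=
      sum_update_add w 1 (srt_leftPath x) hmem
    have hu : Function.update w x (w x + 1) (x + 1) = w (x + 1) :=
      Function.update_of_ne (by omega) _ _
    have h0 : numRot (Function.update w x (w x + 1)) x (leftPath n) = 0 :=
      numRot_eq_zero.2 (noRot _ h1 n h2 (fun h => by have := hw h; omega))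
    rw [List.replicate_succ, List.cons_append, wplCost, h0, Function.iterate_zero_apply,
      ih _ (fun h => by have := hw h; omega), depth_leftPath h1 n h2]
    simp only [Function.update_self, Function.update_idem]
    rw [show w x + 1 + m = w x + (m + 1) by omega]
    ring

/-- The keys `j, j-1, ..., 1`, the key `x` repeated `k + x M` times. -/
def blocks (k M : ℕ) : ℕ → List ℕ
  | 0 => []
  | j + 1 => List.replicate (k + (j + 1) * M) (j + 1) ++ blocks k M j

lemma mem_blocks {k M j v : ℕ} (h : v ∈ blocks k M j) : 1 ≤ v ∧ v ≤ j := by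
  induction j with
  | zero => simp [blocks] at h
  | succ j ih =>
    simp only [blocks, List.mem_append, List.mem_replicate] at h
    rcases h with h | h
    · omega
    · have := ih h; omega

lemma blocks_cost {n k M : ℕ} (j : ℕ) (hj : j ≤ n) : ∀ w : ℕ → ℕ, tot w (leftPath j) ≤ M →
    (j < n → k + (j + 1) * M ≤ w (j + 1)) →
    k * (j * (2 * n + 1)) ≤ 2 * wplCost (leftPath n) w (blocks k M j) + k * (j * j) := by
  induction j with
  | zero => intro w _ _; simp
  | succ j ih =>
    intro w h1 h2
    rw [blocks, block_cost (by omega) hj _ _ w (fun h => by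
      have := h2 h
      have e : (j + 1 + 1) * M = (j + 1) * M + M := by ring
      omega)]
    have h3 : tot (Function.update w (j + 1) (w (j + 1) + (k + (j + 1) * M))) (leftPath j) ≤ M := by
      have : tot (Function.update w (j + 1) (w (j + 1) + (k + (j + 1) * M))) (leftPath j) =
          tot w (leftPath j) := sum_update_not_mem w _ (by
        rw [inorder_leftPath, List.mem_range'_1]; omega)
      rw [this]
      rw [show leftPath (j + 1) = node (leftPath j) (j + 1) nil from rfl, tot_node] at h1
      omega
    have h4 := ih (by omega) _ h3 (fun _ => by rw [Function.update_self]; omega)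
    obtain ⟨d, rfl⟩ : ∃ d, n = j + 1 + d := ⟨n - (j + 1), by omega⟩
    rw [show j + 1 + d + 1 - (j + 1) = d + 1 by omega]
    nlinarith [Nat.zero_le ((j + 1) * M * (d + 1))]

lemma serves_idle (σ : List ℕ) {τ : List ℕ} {T : BT} {c : ℕ} (h : Serves T τ c) :
    ∃ c', Serves T (σ ++ τ) c' ∧ c' ≤ σ.length * T.inorder.length + c := by
  induction σ with
  | nil => exact ⟨c, h, by simp⟩
  | cons x σ ih =>
    obtain ⟨c', h1, h2⟩ := ih
    refine ⟨_, Serves.access T T x 0 c' _ (Rots.zero T) h1, ?_⟩
    have := depth_le_length T x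
    simp only [List.length_cons]
    nlinarith

lemma toRoot {x : ℕ} (d : ℕ) : ∀ T : BT, Srt T → x ∈ T.inorder → T.depth x ≤ d →
    ∃ j T', Rots j T T' ∧ j ≤ d ∧ T'.inorder = T.inorder ∧ T'.root = some x := by
  induction d with
  | zero =>
    intro T hs hx hd
    by_cases hr : T.root = some x
    · exact ⟨0, T, Rots.zero T, le_rfl, rfl, hr⟩
    · have := (rotUp_spec hs hx hr).2.1
      omega
  | succ d ih =>
    intro T hs hx hd
    by_cases hr : T.root = some x
    · exact ⟨0, T, Rots.zero T, by omega, rfl, hr⟩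
    · obtain ⟨h1, h2, -⟩ := rotUp_spec hs hx hr
      obtain ⟨j, T', h3, h4, h5, h6⟩ := ih (rotUp x T) (srt_rotUp hs) (by rwa [inorder_rotUp])
        (by omega)
      exact ⟨j + 1, T', Rots.succ _ _ _ _ h1 h3, by omega, by rw [h5, inorder_rotUp], h6⟩

lemma serves_root {x : ℕ} {T : BT} (hr : T.root = some x) {τ : List ℕ} {c : ℕ}
    (h : Serves T τ c) (m : ℕ) : Serves T (List.replicate m x ++ τ) (m + c) := by
  induction m with
  | zero => simpa using h
  | succ m ih =>
    have := Serves.access T T x 0 _ _ (Rots.zero T) ih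
    rw [depth_of_root hr] at this
    rw [List.replicate_succ, List.cons_append, show m + 1 + c = 1 + 0 + (m + c) by omega]
    exact this

lemma serves_blocks {n k M : ℕ} (j : ℕ) (hj : j ≤ n) : ∀ T : BT, T.inorder = List.range' 1 n →
    ∃ c, Serves T (blocks k M j) c ∧ c ≤ j * (2 * n + k + n * M) := by
  induction j with
  | zero => intro T _; exact ⟨0, Serves.done T, by simp⟩
  | succ j ih =>
    intro T hT
    rw [blocks]
    rcases hm : k + (j + 1) * M with _ | m
    · obtain ⟨c, h1, h2⟩ := ih (by omega) T hT
      exact ⟨c, by simpa using h1, by nlinarith⟩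
    · obtain ⟨i, T', h1, h2, h3, h4⟩ := toRoot (x := j + 1) _ T (srt_of_range hT)
        (by rw [hT, List.mem_range'_1]; omega) le_rfl
      obtain ⟨c, h5, h6⟩ := ih (by omega) T' (h3.trans hT)
      refine ⟨_, Serves.access T T' (j + 1) i _ _ h1 (serves_root h4 h5 m), ?_⟩
      have h7 := depth_le_length T (j + 1)
      rw [hT, List.length_range'] at h7
      have h8 : (j + 1) * M ≤ n * M := Nat.mul_le_mul_right M hj
      nlinarith

theorem main (n : ℕ) (hn : 1 ≤ n) (T₀ : BT) (hT : T₀.inorder = List.range' 1 n) (B : ℕ) :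
    ∃ σ : List ℕ, (∀ x ∈ σ, 1 ≤ x ∧ x ≤ n) ∧
      n * opt T₀ σ + B < 2 * wplCost T₀ (fun _ => 0) σ := by
  obtain ⟨w, σ₁, h1, h2⟩ := reach_leftPath hn hT (fun _ => 0)
  set M := tot w (leftPath n) with hM
  set C := σ₁.length * n + n * (2 * n + n * M) with hC
  set k := C + B + 1 with hk
  refine ⟨σ₁ ++ blocks k M n, fun x hx => ?_, ?_⟩
  · rcases List.mem_append.1 hx with h | h
    · exact h1 x h
    · exact mem_blocks h
  have h3 := blocks_cost (k := k) (M := M) n le_rfl w le_rfl (fun h => absurd h (lt_irrefl _))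
  have h4 := h2 (blocks k M n)
  obtain ⟨c, h5, h6⟩ := serves_blocks (k := k) (M := M) n le_rfl T₀ hT
  obtain ⟨c', h7, h8⟩ := serves_idle σ₁ h5
  rw [hT, List.length_range'] at h8
  have h9 : opt T₀ (σ₁ ++ blocks k M n) ≤ c' := Nat.sInf_le h7
  have h10 : opt T₀ (σ₁ ++ blocks k M n) ≤ C + n * k := by
    rw [hC]; nlinarith
  have h11 : n * opt T₀ (σ₁ ++ blocks k M n) ≤ n * (C + n * k) := Nat.mul_le_mul_left n h10
  have h12 : n * C + B < n * k := by
    rw [hk]; nlinarith
  nlinarith

end BT

end Pool.Agent.Work.MP_69b7b0_lc
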